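import Pool.Agent.H38.O1.N3

/-!
MP_52f71e_al: commutators `q \ (T_b q)` in an automorphic loop, and
`τ = T_b⁻¹ T_(t b)` commutes with `D_q τ D_q`, `t = th(a, b)`.
-/

set_option autoImplicit false

namespace ALoop

open Equiv

variable {Q : Type*} {G : Subgroup (Perm Q)} {L : Q → Perm Q} {J : Perm Q} {e : Q}

/-- the commutator `q \ (T_b q)` -/
def Cm (L : Q → Perm Q) (J : Perm Q) (b q : Q) : Q := (L q)⁻¹ (Tx L J b q)

theorem o1_ap (p : Perm Q) (x : Q) : p (p⁻¹ x) = x := p.apply_symm_apply x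

theorem o1_ia (p : Perm Q) (x : Q) : p⁻¹ (p x) = x := p.symm_apply_apply x

namespace AL0

theorem Cm_mul (_h : AL0 G L J e) (b q : Q) : L q (Cm L J b q) = Tx L J b q := by
  unfold Cm; exact o1_ap _ _

theorem th_iff (h : AL0 G L J e) (v w s : Q) :
    Th L J v w s = s ↔ L v (L s w) = L (L v s) w := by
  unfold Th
  simp only [Perm.mul_apply]
  rw [Perm.inv_eq_iff_eq, Perm.inv_eq_iff_eq, h.Rt_app, h.Rt_app]

theorem Nsp_fix (h : AL0 G L J e) (s v : Q) : Nsp L s v ↔ ∀ w, Th L J v w s = s := by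
  constructor
  · intro hs w
    rw [h.th_iff]
    have := congrArg (fun p : Perm Q => p w) hs
    simpa only [Perm.mul_apply] using this
  · intro hs
    ext w
    have := (h.th_iff v w s).1 (hs w)
    simpa only [Perm.mul_apply] using this

theorem fix_ldiv (h : AL0 G L J e) {g : Perm Q} (hg : g ∈ G) (hge : g e = e) {s s1 : Q}
    (h1 : g s = s) (h2 : g (L s s1) = L s s1) : g s1 = s1 := by
  rw [h.aut hg hge, h1] at h2
  exact (L s).injective h2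

theorem C_ldiv (h : AL0 G L J e) {s s1 v : Q} (h1 : Nsp L s v) (h2 : Nsp L (L s s1) v) :
    Nsp L s1 v := by
  rw [h.Nsp_fix] at h1 h2 ⊢
  intro w
  exact h.fix_ldiv (h.Th_mem _ _) (h.Th_e _ _) (h1 w) (h2 w)

theorem Nsp_rdiv (h : AL0 G L J e) {s v w : Q} (hv : Nsp L s v) (hw : Nsp L s (L w v)) :
    Nsp L s w := by
  rw [h.Nsp_iff] at hv hw ⊢
  intro y
  obtain ⟨h1, h2⟩ := h.Nsp_r s y
  have h3 := hw y
  rw [h.aut h1 h2, hv y] at h3
  apply (Rt L J v).injective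
  rw [h.Rt_app, h.Rt_app]
  exact h3

theorem Rt_conj (h : AL0 G L J e) {k : Perm Q} (hk : k ∈ G) (hke : k e = e) (b : Q) :
    k * Rt L J b * k⁻¹ = Rt L J (k b) := by
  have hJ := h.comJ k hk hke
  have h1 : k (J b) = J (k b) := by
    have := congrArg (fun p : Perm Q => p b) hJ
    simpa only [Perm.mul_apply] using this
  have h2 := h.equi k hk hke (J b)
  have hJ' : J * k⁻¹ = k⁻¹ * J := by
    calc J * k⁻¹ = k⁻¹ * (k * J) * k⁻¹ := by group
      _ = k⁻¹ * (J * k) * k⁻¹ := by rw [hJ]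
      _ = _ := by group
  unfold Rt
  rw [← h1, ← h2]
  calc k * (J * L (J b) * J) * k⁻¹ = (k * J) * L (J b) * (J * k⁻¹) := by group
    _ = (J * k) * L (J b) * (k⁻¹ * J) := by rw [hJ, hJ']
    _ = _ := by group

theorem Tx_conj (h : AL0 G L J e) {k : Perm Q} (hk : k ∈ G) (hke : k e = e) (b : Q) :
    k * Tx L J b * k⁻¹ = Tx L J (k b) := by
  unfold Tx
  rw [← h.Rt_conj hk hke, ← h.equi k hk hke]
  group

theorem Cm_conj (h : AL0 G L J e) {k : Perm Q} (hk : k ∈ G) (hke : k e = e) (b q : Q) :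
    k (Cm L J b q) = Cm L J (k b) (k q) := by
  apply (L (k q)).injective
  rw [← h.aut hk hke, h.Cm_mul, h.Cm_mul, ← h.Tx_conj hk hke, Perm.mul_apply, Perm.mul_apply,
    o1_ia]

theorem N3' (h : AL0 G L J e) (b q : Q) : Nsp L (Cm L J b q) q := h.N3 b q

theorem N4' (h : AL0 G L J e) (b q : Q) : Nsp L (Cm L J b q) b := h.N4 b q

theorem Tx_app (h : AL0 G L J e) (b q : Q) : L (Tx L J b q) b = L b q := by
  have h1 : Tx L J b * Rt L J b = L b := by unfold Tx; group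
  have h2 := congrArg (fun p : Perm Q => p q) h1
  simp only [Perm.mul_apply] at h2
  rw [← h.Rt_app]
  have h3 : Rt L J b (Tx L J b q) = Tx L J b (Rt L J b q) := by
    have := congrArg (fun p : Perm Q => p q) (h.Tx_R b)
    simp only [Perm.mul_apply] at this
    exact this.symm
  rw [h3, h2]

/-- `s b = T_q⁻¹ b` for `s = q \ (T_b q)` -/
theorem N1 (h : AL0 G L J e) (b q : Q) : L (Cm L J b q) b = Tx L J (J q) b := by
  have h1 : L q (L (Cm L J b q) b) = L b q := by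
    have h2 := congrArg (fun p : Perm Q => p b) (h.N3' b q)
    simp only [Perm.mul_apply] at h2
    rw [h2, h.Cm_mul, h.Tx_app]
  have h3 : Tx L J q (L (Cm L J b q) b) = b := by
    apply (Rt L J q).injective
    rw [h.Rt_app, h.Rt_app, h.Tx_app, h1]
  rw [h.Tx_inv]
  rw [Perm.eq_inv_iff_eq, h3]

/-- the inverse of a commutator -/
theorem J_Cm (h : AL0 G L J e) (b q : Q) : J (Cm L J b q) = Cm L J (J q) (J b) := by
  apply (L (J b)).injective
  rw [h.Cm_mul, ← h.aaip, h.N1]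
  have := congrArg (fun p : Perm Q => p b) (h.Tx_J (J q))
  simp only [Perm.mul_apply] at this
  exact this.symm

/-- `(a s) b = a (s b)` for `s = q \ (T_b q)` -/
theorem th_fix (h : AL0 G L J e) (a b q : Q) : Th L J a b (Cm L J b q) = Cm L J b q := by
  rw [h.th_iff]
  have h1 := h.N3' (J q) (J b)
  rw [← h.J_Cm] at h1
  have h2 := congrArg (fun p : Perm Q => p (J a)) h1
  simp only [Perm.mul_apply] at h2
  have h3 := congrArg (fun x : Q => J x) h2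
  simp only [h.aaip, h.JJ] at h3
  exact h3.symm

/-- `t₁ = T_b⁻¹ th(a,b) T_b` fixes the commutators `Cm b q` -/
theorem th1_fix (h : AL0 G L J e) (a b q : Q) :
    ((Tx L J b)⁻¹ * Th L J a b * Tx L J b) (Cm L J b q) = Cm L J b q := by
  have h1 := h.Cm_conj (h.Tx_mem b) (h.Tx_e b) b q
  rw [h.Tx_x] at h1
  simp only [Perm.mul_apply]
  rw [h1, h.th_fix, ← h1, o1_ia]

/-- `τ = T_b⁻¹ t T_b t⁻¹` -/
def Tau (L : Q → Perm Q) (J : Perm Q) (a b : Q) : Perm Q :=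
  (Tx L J b)⁻¹ * Th L J a b * Tx L J b * (Th L J a b)⁻¹

theorem Tau_mem (h : AL0 G L J e) (a b : Q) : Tau L J a b ∈ G :=
  G.mul_mem (G.mul_mem (G.mul_mem (G.inv_mem (h.Tx_mem b)) (h.Th_mem a b)) (h.Tx_mem b))
    (G.inv_mem (h.Th_mem a b))

theorem Tau_e (h : AL0 G L J e) (a b : Q) : Tau L J a b e = e := by
  unfold Tau
  have h1 : (Th L J a b)⁻¹ e = e := by rw [Perm.inv_eq_iff_eq, h.Th_e]
  have h2 : (Tx L J b)⁻¹ e = e := by rw [Perm.inv_eq_iff_eq, h.Tx_e]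
  simp only [Perm.mul_apply]
  rw [h1, h.Tx_e, h.Th_e, h2]

theorem Tau_fix (h : AL0 G L J e) (a b q : Q) : Tau L J a b (Cm L J b q) = Cm L J b q := by
  unfold Tau
  rw [Perm.mul_apply]
  have h1 : (Th L J a b)⁻¹ (Cm L J b q) = Cm L J b q := by
    rw [Perm.inv_eq_iff_eq, h.th_fix]
  rw [h1, h.th1_fix]

theorem Tau_eq (h : AL0 G L J e) (a b : Q) :
    Tx L J b * Tau L J a b = Tx L J (Th L J a b b) := by
  rw [← h.Tx_conj (h.Th_mem a b) (h.Th_e a b)]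
  unfold Tau
  group

/-- the key step: for `c = q \ (τ q)`: `L q L c = L (q c)` and `τ c = c` -/
theorem Tau_key (h : AL0 G L J e) (a b q : Q) :
    L q * L ((L q)⁻¹ (Tau L J a b q)) = L (Tau L J a b q) ∧
      Tau L J a b ((L q)⁻¹ (Tau L J a b q)) = (L q)⁻¹ (Tau L J a b q) := by
  obtain ⟨c, hc⟩ : ∃ c, c = (L q)⁻¹ (Tau L J a b q) := ⟨_, rfl⟩
  have hqc : L q c = Tau L J a b q := by rw [hc, o1_ap]
  obtain ⟨t, ht⟩ : ∃ t, t = Th L J a b := ⟨_, rfl⟩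
  have tG : t ∈ G := ht ▸ h.Th_mem a b
  have te : t e = e := ht ▸ h.Th_e a b
  obtain ⟨s, hs⟩ : ∃ s, s = Cm L J b q := ⟨_, rfl⟩
  obtain ⟨s1, hs1⟩ : ∃ s1, s1 = Cm L J (t b) q := ⟨_, rfl⟩
  -- `s1 = Cm b (t⁻¹ q)`
  have hs1' : s1 = Cm L J b (t⁻¹ q) := by
    have h1 := h.Cm_conj tG te b (t⁻¹ q)
    rw [o1_ap, ← hs1] at h1
    rw [← h1, ht, h.th_fix]
  -- `s (T_b c) = s1`
  have h2 : L s (Tx L J b c) = s1 := by
    apply (L q).injective
    rw [hs1, h.Cm_mul]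
    have h3 := congrArg (fun p : Perm Q => p (Tx L J b c)) (h.N3' b q)
    simp only [Perm.mul_apply] at h3
    rw [hs, h3, h.Cm_mul, ← h.aut (h.Tx_mem b) (h.Tx_e b), hqc, ht, ← h.Tau_eq, Perm.mul_apply]
  have a1 : Nsp L s q := hs ▸ h.N3' b q
  have a2 : Nsp L s b := hs ▸ h.N4' b q
  have a3 : Nsp L s1 q := hs1 ▸ h.N3' (t b) q
  have a4 : Nsp L s1 b := hs1' ▸ h.N4' b (t⁻¹ q)
  have a5 : Nsp L (Tx L J b c) q := h.C_ldiv a1 (h2.symm ▸ a3)
  have a6 : Nsp L (Tx L J b c) b := h.C_ldiv a2 (h2.symm ▸ a4)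
  have TiG : (Tx L J b)⁻¹ ∈ G := G.inv_mem (h.Tx_mem b)
  have Tie : (Tx L J b)⁻¹ e = e := by rw [Perm.inv_eq_iff_eq, h.Tx_e]
  have Tib : (Tx L J b)⁻¹ b = b := by rw [Perm.inv_eq_iff_eq, h.Tx_x]
  have a7 := h.Nsp_inn TiG Tie a5
  have a8 := h.Nsp_inn TiG Tie a6
  rw [o1_ia] at a7 a8
  rw [Tib] at a8
  have a9 : Nsp L c q := by
    apply h.Nsp_rdiv a8
    have h5 := h.Tx_app b ((Tx L J b)⁻¹ q)
    rw [o1_ap] at h5
    rw [h5]
    exact h.Nsp_mul a8 a7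
  refine ⟨?_, ?_⟩
  · rw [← hc]
    have := a9
    unfold Nsp at this
    rw [this, hqc]
  · rw [← hc]
    have b1 : Tau L J a b (Tx L J b c) = Tx L J b c := by
      refine h.fix_ldiv (h.Tau_mem a b) (h.Tau_e a b) (s := s) ?_ ?_
      · rw [hs, h.Tau_fix]
      · rw [h2, hs1', h.Tau_fix]
    -- transport by `T_b⁻¹`
    have h6 : L ((Tx L J b)⁻¹ s) c = (Tx L J b)⁻¹ s1 := by
      rw [← h2, h.aut TiG Tie, o1_ia]
    refine h.fix_ldiv (h.Tau_mem a b) (h.Tau_e a b) (s := (Tx L J b)⁻¹ s) ?_ ?_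
    · rw [hs, h.Cm_conj TiG Tie, Tib, h.Tau_fix]
    · rw [h6, hs1', h.Cm_conj TiG Tie, Tib, h.Tau_fix]

/-- **`τ` commutes with `D_q τ D_q`** -/
theorem Tau_D (h : AL0 G L J e) (a b q : Q) :
    Commute (Tau L J a b) (D L J q * Tau L J a b * D L J q) := by
  obtain ⟨h1, h2⟩ := h.Tau_key a b q
  obtain ⟨τ, hτ⟩ : ∃ τ, τ = Tau L J a b := ⟨_, rfl⟩
  have τG : τ ∈ G := hτ ▸ h.Tau_mem a b
  have τe : τ e = e := hτ ▸ h.Tau_e a b
  obtain ⟨c, hc⟩ : ∃ c, c = (L q)⁻¹ (Tau L J a b q) := ⟨_, rfl⟩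
  rw [← hc] at h1 h2
  rw [← hτ] at h1 h2 ⊢
  have hJJ := h.JJ1
  have cL : τ * L c = L c * τ := h.comL τG τe h2
  have cJ : τ * J = J * τ := h.comJ τ τG τe
  -- `P = L c * J * (L c)⁻¹ * J`
  obtain ⟨P, hP⟩ : ∃ P, P = L c * J * (L c)⁻¹ * J := ⟨_, rfl⟩
  have cLi : τ * (L c)⁻¹ = (L c)⁻¹ * τ := by
    calc τ * (L c)⁻¹ = (L c)⁻¹ * (L c * τ) * (L c)⁻¹ := by group
      _ = (L c)⁻¹ * (τ * L c) * (L c)⁻¹ := by rw [cL]
      _ = _ := by group
  have cP : τ * P = P * τ := by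
    rw [hP]
    calc τ * (L c * J * (L c)⁻¹ * J) = (τ * L c) * J * (L c)⁻¹ * J := by group
      _ = L c * (τ * J) * (L c)⁻¹ * J := by rw [cL]; group
      _ = L c * J * (τ * (L c)⁻¹) * J := by rw [cJ]; group
      _ = L c * J * (L c)⁻¹ * (τ * J) := by rw [cLi]; group
      _ = _ := by rw [cJ]; group
  have cLP : L c * P = P * L c := by
    have h5 : J * (L c)⁻¹ * J = (Rt L J (J c))⁻¹ := by
      rw [← h.JLJ, mul_inv_rev, mul_inv_rev, h.Jinv]; group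
    have h6 : P = L c * (Rt L J (J c))⁻¹ := by rw [hP, ← h5]; group
    have h7 : L c * (Rt L J (J c))⁻¹ = (Rt L J (J c))⁻¹ * L c := by
      have h8 := h.LRJ c
      calc L c * (Rt L J (J c))⁻¹ = (Rt L J (J c))⁻¹ * (Rt L J (J c) * L c) * (Rt L J (J c))⁻¹ := by
            group
        _ = (Rt L J (J c))⁻¹ * (L c * Rt L J (J c)) * (Rt L J (J c))⁻¹ := by rw [h8]
        _ = _ := by group
    rw [h6]
    calc L c * (L c * (Rt L J (J c))⁻¹) = L c * ((Rt L J (J c))⁻¹ * L c) := by rw [h7]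
      _ = _ := by group
  -- `L q⁻¹ τ L q = L c τ`
  have k1 : τ * L q = L q * L c * τ := by
    have h9 := h.equi τ τG τe q
    rw [h1, ← h9]; group
  -- `τ D τ⁻¹ D = L q P (L q)⁻¹`
  have hDi : (D L J q)⁻¹ = D L J q := by
    unfold D
    rw [mul_inv_rev, mul_inv_rev, inv_inv, h.Jinv]; group
  have hDD : D L J q * D L J q = 1 := by
    unfold D
    calc L q * J * (L q)⁻¹ * (L q * J * (L q)⁻¹) = L q * (J * J) * (L q)⁻¹ := by group
      _ = 1 := by rw [hJJ]; group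
  have k2 : τ * D L J q * τ⁻¹ * D L J q = L q * P * (L q)⁻¹ := by
    have e1 : τ * D L J q * τ⁻¹ = (τ * L q) * J * (τ * L q)⁻¹ := by unfold D; group
    rw [e1, k1]
    have e2 : (L q * L c * τ) * J * (L q * L c * τ)⁻¹ = L q * L c * J * (L c)⁻¹ * (L q)⁻¹ := by
      calc (L q * L c * τ) * J * (L q * L c * τ)⁻¹
          = L q * L c * (τ * J) * τ⁻¹ * (L c)⁻¹ * (L q)⁻¹ := by group
        _ = L q * L c * (J * τ) * τ⁻¹ * (L c)⁻¹ * (L q)⁻¹ := by rw [cJ]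
        _ = _ := by group
    rw [e2, hP]
    unfold D
    group
  have k3 : τ * (L q * P * (L q)⁻¹) = (L q * P * (L q)⁻¹) * τ := by
    have e1 : (L q)⁻¹ * τ * L q = L c * τ := by
      calc (L q)⁻¹ * τ * L q = (L q)⁻¹ * (τ * L q) := by group
        _ = (L q)⁻¹ * (L q * L c * τ) := by rw [k1]
        _ = _ := by group
    calc τ * (L q * P * (L q)⁻¹) = L q * ((L q)⁻¹ * τ * L q) * P * (L q)⁻¹ := by group
      _ = L q * (L c * τ) * P * (L q)⁻¹ := by rw [e1]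
      _ = L q * L c * (τ * P) * (L q)⁻¹ := by group
      _ = L q * L c * (P * τ) * (L q)⁻¹ := by rw [cP]
      _ = L q * (L c * P) * τ * (L q)⁻¹ := by group
      _ = L q * (P * L c) * τ * (L q)⁻¹ := by rw [cLP]
      _ = L q * P * (L c * τ) * (L q)⁻¹ := by group
      _ = L q * P * ((L q)⁻¹ * τ * L q) * (L q)⁻¹ := by rw [e1]
      _ = _ := by group
  rw [← k2] at k3
  have c1 : Commute τ (τ * D L J q * τ⁻¹ * D L J q) := k3
  have c2 : Commute τ (D L J q * τ⁻¹ * D L J q) := by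
    have e1 : D L J q * τ⁻¹ * D L J q = τ⁻¹ * (τ * D L J q * τ⁻¹ * D L J q) := by group
    rw [e1]
    exact (Commute.refl τ).inv_right.mul_right c1
  have c3 := c2.inv_right
  have e2 : (D L J q * τ⁻¹ * D L J q)⁻¹ = D L J q * τ * D L J q := by
    rw [mul_inv_rev, mul_inv_rev, inv_inv, hDi]; group
  rw [e2] at c3
  exact c3

end AL0

end ALoop
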