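import Pool.Agent.H40.O1.K7
import Pool.Agent.H40.O2.Fin
import Pool.Agent.H71.O2.Nuc

/-!
MP_52f71e_al: the end game after K7 (helper12).
-/

set_option autoImplicit false

namespace ALoop

open Equiv

variable {Q : Type*} {G : Subgroup (Perm Q)} {L : Q → Perm Q} {J : Perm Q} {e : Q}

/-- `a(x, y) = L_(xy)⁻¹ L_x L_y` -/
def Al (L : Q → Perm Q) (x y : Q) : Perm Q := (L (L x y))⁻¹ * L x * L y

namespace AL0

theorem Th_conj (h : AL0 G L J e) {k : Perm Q} (hk : k ∈ G) (hke : k e = e) (a b : Q) :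
    k * Th L J a b * k⁻¹ = Th L J (k a) (k b) := by
  unfold Th
  rw [← h.equi k hk hke a, ← h.Rt_conj hk hke b]
  group

theorem Al_conj (h : AL0 G L J e) {k : Perm Q} (hk : k ∈ G) (hke : k e = e) (a b : Q) :
    k * Al L a b * k⁻¹ = Al L (k a) (k b) := by
  unfold Al
  rw [← h.aut hk hke a b, ← h.equi k hk hke a, ← h.equi k hk hke b, ← h.equi k hk hke (L a b)]
  group

theorem Al_mem (h : AL0 G L J e) (a b : Q) : Al L a b ∈ G :=
  G.mul_mem (G.mul_mem (G.inv_mem (h.memL _)) (h.memL _)) (h.memL _)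

theorem Al_e (h : AL0 G L J e) (a b : Q) : Al L a b e = e := by
  unfold Al
  rw [Perm.mul_apply, Perm.mul_apply, h.Le, Perm.inv_eq_iff_eq, h.Le]

theorem Al_x (h : AL0 G L J e) (a b : Q) : Al L a b a = a := by
  unfold Al
  rw [Perm.mul_apply, Perm.mul_apply, Perm.inv_eq_iff_eq, h.flex']

theorem LL (_h : AL0 G L J e) (a b : Q) : L a * L b = L (L a b) * Al L a b := by
  unfold Al; group

variable (hK : ∀ a b, Th L J a b b = b)
include hK

theorem k_tha (h : AL0 G L J e) (a b : Q) : Th L J a b a = a := by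
  have h1 := hK (J b) (J a)
  rw [h.Th_inv, Perm.inv_eq_iff_eq] at h1
  have h2 := h.fixJ (h.Th_mem a b) (h.Th_e a b) h1.symm
  rwa [h.JJ] at h2

theorem k_T (h : AL0 G L J e) (a b : Q) : Commute (Tx L J b) (Th L J a b) :=
  h.Tx_cen b _ (h.Th_mem a b) (h.Th_e a b) (hK a b)

theorem k_J (h : AL0 G L J e) (a b : Q) : Th L J a (J b) = (Th L J a b)⁻¹ := by
  have h1 := h.K1 a b
  rw [← (h.k_T hK a b).eq] at h1
  rw [← mul_left_cancel h1, inv_inv]

theorem k_A (h : AL0 G L J e) (a b : Q) : Th L J b a = (Th L J a b)⁻¹ := by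
  have h1 := h.K2 a b
  rw [← (h.k_T hK a b).eq] at h1
  have h2 := mul_left_cancel h1
  rw [h.k_J hK] at h2
  rw [← h2, inv_inv]

theorem k_cR (h : AL0 G L J e) (a b : Q) : Commute (Th L J a b) (Rt L J b) :=
  h.comR (h.Th_mem a b) (h.Th_e a b) (hK a b)

theorem k_ip (h : AL0 G L J e) (b : Q) : Rt L J b * Rt L J (J b) = 1 := by
  obtain ⟨μ, hμ⟩ : ∃ μ, μ = Rt L J b * Rt L J (J b) := ⟨_, rfl⟩
  have hcomm : ∀ a, L a * μ = μ * L a := by
    intro a
    have A1 : (L a)⁻¹ * Rt L J b * L a = Rt L J b * (Th L J a b)⁻¹ := by unfold Th; group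
    have A2 : (L a)⁻¹ * Rt L J (J b) * L a = Rt L J (J b) * Th L J a b := by
      have h1 := h.k_J hK a b
      have h2 : Th L J a b = (Th L J a (J b))⁻¹ := by rw [h1, inv_inv]
      rw [h2]; unfold Th; group
    have tR' : Commute (Th L J a b) (Rt L J (J b)) :=
      h.comR (h.Th_mem a b) (h.Th_e a b) (h.fixJ (h.Th_mem a b) (h.Th_e a b) (hK a b))
    have h3 : (L a)⁻¹ * μ * L a = μ := by
      rw [hμ]
      calc (L a)⁻¹ * (Rt L J b * Rt L J (J b)) * L a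
          = ((L a)⁻¹ * Rt L J b * L a) * ((L a)⁻¹ * Rt L J (J b) * L a) := by group
        _ = (Rt L J b * (Th L J a b)⁻¹) * (Rt L J (J b) * Th L J a b) := by rw [A1, A2]
        _ = Rt L J b * (Th L J a b)⁻¹ * (Rt L J (J b) * Th L J a b) := by group
        _ = Rt L J b * (Th L J a b)⁻¹ * (Th L J a b * Rt L J (J b)) := by rw [tR'.eq]
        _ = _ := by group
    calc L a * μ = L a * ((L a)⁻¹ * μ * L a) := by rw [h3]
      _ = _ := by group
  have he : μ e = e := by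
    rw [hμ, Perm.mul_apply, h.Rt_e, h.Rt_app, h.JL]
  rw [← hμ]
  ext a
  have h1 := congrArg (fun p : Perm Q => p e) (hcomm a)
  simp only [Perm.mul_apply] at h1
  rw [he, h.Le] at h1
  rw [← h1]
  rfl

theorem k_Ri (h : AL0 G L J e) (b : Q) : Rt L J (J b) = (Rt L J b)⁻¹ := by
  exact eq_inv_of_mul_eq_one_right (h.k_ip hK b)

theorem k_Li (h : AL0 G L J e) (b : Q) : L (J b) = (L b)⁻¹ := by
  have h1 := h.k_Ri hK (J b)
  have h2 : J * Rt L J (J (J b)) * J = L (J b) := by rw [h.JJ]; exact h.JRJ b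
  rw [← h2, h1]
  have h3 : J * (Rt L J (J b))⁻¹ * J = (J * Rt L J (J b) * J)⁻¹ := by
    rw [mul_inv_rev, mul_inv_rev, h.Jinv]; group
  rw [h3, h.JRJ, h.JJ]

theorem k_Aly (h : AL0 G L J e) (a b : Q) : Al L a b b = b := by
  unfold Al
  rw [Perm.mul_apply, Perm.mul_apply, Perm.inv_eq_iff_eq]
  exact (h.th_iff a b b).1 (hK a b)

theorem k_Alxy (h : AL0 G L J e) (a b : Q) : Al L a b (L a b) = L a b := by
  rw [h.aut (h.Al_mem a b) (h.Al_e a b), h.Al_x, h.k_Aly hK]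

theorem k_AlJ (h : AL0 G L J e) (a b : Q) : Al L (J b) (J a) = (Al L a b)⁻¹ := by
  have h1 := h.LL (J b) (J a)
  rw [← h.aaip, h.k_Li hK, h.k_Li hK, h.k_Li hK] at h1
  -- (L b)⁻¹ (L a)⁻¹ = (L (ab))⁻¹ al'
  obtain ⟨α, hα⟩ : ∃ α, α = Al L (J b) (J a) := ⟨_, rfl⟩
  rw [← hα] at h1 ⊢
  have αG : α ∈ G := hα ▸ h.Al_mem _ _
  have αe : α e = e := hα ▸ h.Al_e _ _
  have αb : α b = b := by
    have := h.fixJ αG αe (x := J b) (by rw [hα, h.Al_x])
    rwa [h.JJ] at this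
  have αa : α a = a := by
    have := h.fixJ αG αe (x := J a) (by rw [hα, h.k_Aly hK])
    rwa [h.JJ] at this
  have αab : α (L a b) = L a b := by rw [h.aut αG αe, αa, αb]
  have αL := h.comL αG αe αab
  unfold Al
  calc α = (L (L a b))⁻¹ * (L (L a b) * α) := by group
    _ = (L (L a b))⁻¹ * (α * L (L a b)) := by rw [αL]
    _ = ((L (L a b))⁻¹ * α) * L (L a b) := by group
    _ = ((L b)⁻¹ * (L a)⁻¹) * L (L a b) := by rw [← h1]
    _ = _ := by group

theorem k_RR (h : AL0 G L J e) (y z : Q) :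
    Rt L J z * Rt L J y = Rt L J (L y z) * (Al L y z)⁻¹ := by
  have h1 := h.LL (J z) (J y)
  rw [← h.aaip, h.k_AlJ hK] at h1
  have hJ := h.comJ _ (G.inv_mem (h.Al_mem y z)) (by rw [Perm.inv_eq_iff_eq, h.Al_e])
  unfold Rt
  calc J * L (J z) * J * (J * L (J y) * J) = J * L (J z) * (J * J) * L (J y) * J := by group
    _ = J * (L (J z) * L (J y)) * J := by rw [h.JJ1]; group
    _ = J * (L (J (L y z)) * (Al L y z)⁻¹) * J := by rw [h1]
    _ = J * L (J (L y z)) * ((Al L y z)⁻¹ * J) := by group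
    _ = _ := by rw [hJ]; group

theorem k3a (h : AL0 G L J e) (x y z : Q) : L x (L y z) = Al L x y (L (L x y) z) := by
  have h1 := congrArg (fun p : Perm Q => p z) (h.LL x y)
  simp only [Perm.mul_apply] at h1
  rw [h.aut (h.Al_mem x y) (h.Al_e x y), h.k_Alxy hK, h1]

theorem k3b (h : AL0 G L J e) (x y z : Q) : L x (L y z) = Th L J x z (L (L x y) z) := by
  have h1 : L x * Rt L J z = Rt L J z * L x * Th L J x z := by unfold Th; group
  have h2 := congrArg (fun p : Perm Q => p y) h1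
  simp only [Perm.mul_apply] at h2
  rw [h.Rt_app, h.Rt_app] at h2
  rw [h2, h.aut (h.Th_mem x z) (h.Th_e x z), h.aut (h.Th_mem x z) (h.Th_e x z), h.k_tha hK, hK]

theorem k3c (h : AL0 G L J e) (x y z : Q) : L x (L y z) = Al L y z (L (L x y) z) := by
  have h1 := congrArg (fun p : Perm Q => p x) (h.k_RR hK y z)
  simp only [Perm.mul_apply] at h1
  rw [h.Rt_app, h.Rt_app, h.Rt_app] at h1
  rw [h1, h.aut (h.Al_mem y z) (h.Al_e y z), h.k_Alxy hK, o1_ap]

theorem k_AlT (h : AL0 G L J e) (x y : Q) : Commute (Tx L J x) (Al L x y) :=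
  h.Tx_cen x _ (h.Al_mem x y) (h.Al_e x y) (h.Al_x x y)

theorem k_AlT' (h : AL0 G L J e) (x y : Q) : Commute (Tx L J y) (Al L x y) :=
  h.Tx_cen y _ (h.Al_mem x y) (h.Al_e x y) (h.k_Aly hK x y)

theorem k4 (h : AL0 G L J e) (x z : Q) : (Al L z x)⁻¹ = Al L x z := by
  ext g
  -- choose `y`
  obtain ⟨y, hy⟩ : ∃ y, L (L x y) z = g := by
    refine ⟨(L x)⁻¹ ((Rt L J z)⁻¹ g), ?_⟩
    rw [o1_ap, ← h.Rt_app, o1_ap]
  have invT : ∀ w, (Tx L J w)⁻¹ ∈ G ∧ (Tx L J w)⁻¹ e = e ∧ (Tx L J w)⁻¹ w = w := fun w =>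
    ⟨G.inv_mem (h.Tx_mem w), by rw [Perm.inv_eq_iff_eq, h.Tx_e],
      by rw [Perm.inv_eq_iff_eq, h.Tx_x]⟩
  -- (i)
  have i1 : Al L y x g = Th L J y z g := by
    obtain ⟨a1, a2, a3⟩ := invT y
    obtain ⟨X, hX⟩ : ∃ X, X = (Tx L J y)⁻¹ x := ⟨_, rfl⟩
    have b1 : L y X = L x y := by
      have := h.Tx_app y X
      rw [hX, o1_ap] at this
      rw [hX, this]
    have b2 : Al L y X = Al L y x := by
      have c1 := h.Al_conj a1 a2 y x
      rw [a3, ← hX] at c1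
      rw [← c1]
      have c2 := (h.k_AlT hK y x).inv_left.eq
      rw [c2]; group
    have b3 := h.k3a hK y X z
    have b4 := h.k3b hK y X z
    rw [b3, b1, hy, b2] at b4
    exact b4
  -- (ii)
  have i2 : Al L y x g = Al L x z g := by
    obtain ⟨Y, hY⟩ : ∃ Y, Y = Tx L J x y := ⟨_, rfl⟩
    have b1 : L Y x = L x y := by rw [hY, h.Tx_app]
    have b2 : Al L Y x = Al L y x := by
      have c1 := h.Al_conj (h.Tx_mem x) (h.Tx_e x) y x
      rw [h.Tx_x, ← hY] at c1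
      rw [← c1, (h.k_AlT' hK y x).eq]; group
    have b3 := h.k3a hK Y x z
    have b4 := h.k3c hK Y x z
    rw [b3, b1, hy, b2] at b4
    exact b4
  -- (iii)
  have i3 : (Al L z x)⁻¹ g = Th L J y z g := by
    obtain ⟨a1, a2, a3⟩ := invT z
    obtain ⟨X, hX⟩ : ∃ X, X = (Tx L J z)⁻¹ x := ⟨_, rfl⟩
    obtain ⟨Y, hY⟩ : ∃ Y, Y = (Tx L J z)⁻¹ y := ⟨_, rfl⟩
    have b1 : L z (L X Y) = g := by
      have c1 : L X Y = (Tx L J z)⁻¹ (L x y) := by rw [h.aut a1 a2, hX, hY]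
      have c2 := h.Tx_app z ((Tx L J z)⁻¹ (L x y))
      rw [o1_ap] at c2
      rw [c1, ← c2, hy]
    have b2 : Al L z X = Al L z x := by
      have c1 := h.Al_conj a1 a2 z x
      rw [a3, ← hX] at c1
      rw [← c1, (h.k_AlT hK z x).inv_left.eq]; group
    have b3 : Th L J z Y = Th L J z y := by
      have c1 := h.Th_conj a1 a2 z y
      rw [a3, ← hY] at c1
      have c2 : Commute (Tx L J z) (Th L J z y) :=
        h.Tx_cen z _ (h.Th_mem z y) (h.Th_e z y) (h.k_tha hK z y)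
      rw [← c1, c2.inv_left.eq]; group
    have b4 := h.k3a hK z X Y
    have b5 := h.k3b hK z X Y
    rw [b1, b2] at b4
    rw [b1, b3] at b5
    rw [h.k_A hK z y]
    rw [Perm.inv_eq_iff_eq]
    have b6 : (Th L J z y)⁻¹ g = L (L z X) Y := by rw [Perm.inv_eq_iff_eq]; exact b5
    rw [b6]; exact b4
  rw [i3, ← i1, i2]

theorem k5 (h : AL0 G L J e) (x q : Q) : Th L J x q = (Al L q x)⁻¹ * Al L x q := by
  have h1 : Tx L J q (L x q) = L q x := by
    apply (Rt L J q).injective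
    rw [h.Rt_app, h.Rt_app, h.Tx_app, h.flex']
  have h2 : L (L q x) = Tx L J q * L (L x q) * (Tx L J q)⁻¹ := by
    rw [h.equi _ (h.Tx_mem q) (h.Tx_e q), h1]
  have h3 : L (L x q) = L x * L q * (Al L x q)⁻¹ := by
    rw [h.LL x q]; group
  obtain ⟨α, hα⟩ : ∃ α, α = Al L q x := ⟨_, rfl⟩
  obtain ⟨β, hβ⟩ : ∃ β, β = Al L x q := ⟨_, rfl⟩
  obtain ⟨T, hT⟩ : ∃ T, T = Tx L J q := ⟨_, rfl⟩
  obtain ⟨t, ht⟩ : ∃ t, t = Th L J x q := ⟨_, rfl⟩
  have cβ : Commute T β := by rw [hT, hβ]; exact h.k_AlT' hK x q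
  have cL : Commute T (L q) := by rw [hT]; exact h.Tx_L q
  have ctL : Commute t (L q) := by rw [ht]; exact h.comL (h.Th_mem x q) (h.Th_e x q) (hK x q)
  have h4 : T * L x * T⁻¹ = L q * L x * (L q)⁻¹ * t := by
    have e1 : (Rt L J q)⁻¹ * L x * Rt L J q = L x * t := by rw [ht]; unfold Th; group
    have e2 : T = L q * (Rt L J q)⁻¹ := by rw [hT]; rfl
    have e3 : t * (L q)⁻¹ = (L q)⁻¹ * t := ctL.inv_right.eq
    calc T * L x * T⁻¹ = L q * ((Rt L J q)⁻¹ * L x * Rt L J q) * (L q)⁻¹ := by rw [e2]; group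
      _ = L q * (L x * t) * (L q)⁻¹ := by rw [e1]
      _ = L q * L x * (t * (L q)⁻¹) := by group
      _ = _ := by rw [e3]; group
  have h5 : L q * L x = L q * L x * (t * β⁻¹ * α) := by
    have e4 : β⁻¹ * T⁻¹ = T⁻¹ * β⁻¹ := (cβ.inv_left.inv_right.eq).symm
    have e5 : L q * T⁻¹ = T⁻¹ * L q := (cL.inv_left.eq).symm
    calc L q * L x = L (L q x) * α := by rw [h.LL q x, hα]
      _ = T * (L x * L q * β⁻¹) * T⁻¹ * α := by rw [h2, h3, ← hβ, ← hT]
      _ = T * L x * L q * (β⁻¹ * T⁻¹) * α := by group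
      _ = T * L x * L q * (T⁻¹ * β⁻¹) * α := by rw [e4]
      _ = T * L x * (L q * T⁻¹) * β⁻¹ * α := by group
      _ = T * L x * (T⁻¹ * L q) * β⁻¹ * α := by rw [e5]
      _ = (T * L x * T⁻¹) * L q * β⁻¹ * α := by group
      _ = (L q * L x * (L q)⁻¹ * t) * L q * β⁻¹ * α := by rw [h4]
      _ = L q * L x * (L q)⁻¹ * (t * L q) * β⁻¹ * α := by group
      _ = L q * L x * (L q)⁻¹ * (L q * t) * β⁻¹ * α := by rw [ctL.eq]
      _ = _ := by group
  have h6 : t * β⁻¹ * α = 1 := by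
    have := mul_left_cancel (a := L q * L x) (b := 1) (c := t * β⁻¹ * α) (by rw [mul_one]; exact h5)
    exact this.symm
  rw [← ht, ← hα, ← hβ]
  calc t = (t * β⁻¹ * α) * α⁻¹ * β := by group
    _ = _ := by rw [h6]; group

theorem k6 (h : AL0 G L J e) (q x : Q) : Tx L J (L q x) = Tx L J q * Tx L J x := by
  obtain ⟨α, hα⟩ : ∃ α, α = Al L q x := ⟨_, rfl⟩
  obtain ⟨t, ht⟩ : ∃ t, t = Th L J x q := ⟨_, rfl⟩
  have h1 : L (L q x) = L q * L x * α⁻¹ := by rw [h.LL q x, hα]; group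
  have h2 : Rt L J (L q x) = Rt L J x * Rt L J q * α := by
    rw [h.k_RR hK q x, hα]; group
  have h3 : t = α⁻¹ * α⁻¹ := by
    rw [ht, h.k5 hK, hα, ← h.k4 hK x q]
  have ctx : Commute t (Rt L J x) := by
    rw [ht]; exact h.comR (h.Th_mem x q) (h.Th_e x q) (h.k_tha hK x q)
  have ctq : Commute t (Rt L J q) := by rw [ht]; exact h.k_cR hK x q
  have h4 : (Rt L J q)⁻¹ * L x = L x * (Rt L J q)⁻¹ * t := by
    have e1 : (Rt L J q)⁻¹ * L x * Rt L J q = L x * t := by rw [ht]; unfold Th; group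
    have e2 : t * (Rt L J q)⁻¹ = (Rt L J q)⁻¹ * t := ctq.inv_right.eq
    calc (Rt L J q)⁻¹ * L x = ((Rt L J q)⁻¹ * L x * Rt L J q) * (Rt L J q)⁻¹ := by group
      _ = L x * (t * (Rt L J q)⁻¹) := by rw [e1]; group
      _ = _ := by rw [e2]; group
  have αG : α ∈ G := hα ▸ h.Al_mem q x
  have αe : α e = e := hα ▸ h.Al_e q x
  have cαx : Commute α (Rt L J x) := h.comR αG αe (by rw [hα, h.k_Aly hK])
  have cαq : Commute α (Rt L J q) := h.comR αG αe (by rw [hα, h.Al_x])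
  unfold Tx
  rw [h1, h2]
  have e3 : (Rt L J q)⁻¹ * (Rt L J x)⁻¹ * (α⁻¹ * α⁻¹) = α⁻¹ * α⁻¹ * (Rt L J q)⁻¹ * (Rt L J x)⁻¹ := by
    have c1 : Commute (α⁻¹ * α⁻¹) ((Rt L J q)⁻¹ * (Rt L J x)⁻¹) :=
      ((cαq.inv_left.inv_right).mul_right (cαx.inv_left.inv_right)).mul_left
        ((cαq.inv_left.inv_right).mul_right (cαx.inv_left.inv_right))
    rw [← c1.eq]; group
  have e4 : α⁻¹ * (Rt L J q)⁻¹ = (Rt L J q)⁻¹ * α⁻¹ := (cαq.inv_left.inv_right).eq
  have e5 : α⁻¹ * (Rt L J x)⁻¹ = (Rt L J x)⁻¹ * α⁻¹ := (cαx.inv_left.inv_right).eq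
  calc L q * L x * α⁻¹ * (Rt L J x * Rt L J q * α)⁻¹
      = L q * L x * (α⁻¹ * α⁻¹ * (Rt L J q)⁻¹ * (Rt L J x)⁻¹) := by
        simp only [mul_inv_rev, mul_assoc]
    _ = L q * L x * ((Rt L J q)⁻¹ * (Rt L J x)⁻¹ * (α⁻¹ * α⁻¹)) := by rw [e3]
    _ = L q * L x * ((Rt L J q)⁻¹ * (Rt L J x)⁻¹ * t) := by rw [h3]
    _ = L q * L x * (Rt L J q)⁻¹ * ((Rt L J x)⁻¹ * t) := by group
    _ = L q * L x * (Rt L J q)⁻¹ * (t * (Rt L J x)⁻¹) := by rw [ctx.inv_right.eq]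
    _ = L q * (L x * (Rt L J q)⁻¹ * t) * (Rt L J x)⁻¹ := by group
    _ = L q * ((Rt L J q)⁻¹ * L x) * (Rt L J x)⁻¹ := by rw [h4]
    _ = _ := by group

theorem k7 (h : AL0 G L J e) (x y z : Q) : Commute (Al L x y) (Tx L J z) := by
  obtain ⟨α, hα⟩ : ∃ α, α = Al L x y := ⟨_, rfl⟩
  have αG : α ∈ G := hα ▸ h.Al_mem x y
  have αe : α e = e := hα ▸ h.Al_e x y
  have h1 := h.k3a hK x y z
  rw [← hα] at h1
  have h2 := h.Tx_conj αG αe (L (L x y) z)
  rw [← h1, h.k6 hK, h.k6 hK, h.k6 hK, h.k6 hK] at h2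
  -- α (Tx Ty Tz) α⁻¹ = Tx (Ty Tz)
  have c1 : Commute α (Tx L J x) := by rw [hα]; exact (h.k_AlT hK x y).symm
  have c2 : Commute α (Tx L J y) := by rw [hα]; exact (h.k_AlT' hK x y).symm
  have c3 : Commute α (Tx L J x * Tx L J y) := c1.mul_right c2
  rw [← hα]
  show α * Tx L J z = Tx L J z * α
  have h3 : α * (Tx L J x * Tx L J y * Tx L J z) = (Tx L J x * Tx L J y * Tx L J z) * α := by
    calc α * (Tx L J x * Tx L J y * Tx L J z)
        = (α * (Tx L J x * Tx L J y * Tx L J z) * α⁻¹) * α := by group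
      _ = (Tx L J x * (Tx L J y * Tx L J z)) * α := by rw [h2]
      _ = _ := by group
  calc α * Tx L J z = (Tx L J x * Tx L J y)⁻¹ * ((Tx L J x * Tx L J y) * α) * Tx L J z := by group
    _ = (Tx L J x * Tx L J y)⁻¹ * (α * (Tx L J x * Tx L J y)) * Tx L J z := by rw [c3.eq]
    _ = (Tx L J x * Tx L J y)⁻¹ * (α * (Tx L J x * Tx L J y * Tx L J z)) := by group
    _ = (Tx L J x * Tx L J y)⁻¹ * ((Tx L J x * Tx L J y * Tx L J z) * α) := by rw [h3]
    _ = _ := by group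

theorem k8 (h : AL0 G L J e) (x y b q : Q) : Al L x y (Cm L J b q) = Cm L J b q := by
  obtain ⟨k, hk⟩ : ∃ k, k = Al L x y := ⟨_, rfl⟩
  have kG : k ∈ G := hk ▸ h.Al_mem x y
  have ke : k e = e := hk ▸ h.Al_e x y
  have kT : ∀ w, Tx L J (k w) = Tx L J w := by
    intro w
    rw [← h.Tx_conj kG ke]
    have := (h.k7 hK x y w).eq
    rw [← hk] at this
    rw [this]; group
  rw [← hk, h.Cm_conj kG ke]
  have h1 : Cm L J (k b) (k q) = Cm L J b (k q) := by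
    unfold Cm; rw [kT]
  rw [h1]
  apply (Rt L J b).injective
  rw [h.Rt_app, h.Rt_app, h.N1, h.N1, h.Tx_inv, h.Tx_inv, kT]

end AL0

namespace AL

/-- **the end game** -/
theorem end_game [Finite Q] (h' : AL G L J e) (hK : ∀ a b, Th L J a b b = b) : Assoc L := by
  have h := h'.al0
  by_cases hcm : ∀ b q, Cm L J b q = e
  · -- commutative
    apply h'.comm_case
    intro b
    have h1 : Tx L J b = 1 := by
      ext q
      have := h.Cm_mul b q
      rw [hcm, h.Le] at this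
      rw [← this]; rfl
    have h2 : L b = Tx L J b * Rt L J b := h.L_eq b
    rw [h1, one_mul] at h2
    exact h2.symm
  · push Not at hcm
    obtain ⟨b, q, hbq⟩ := hcm
    obtain ⟨s, hs⟩ : ∃ s, s = Cm L J b q := ⟨_, rfl⟩
    rw [← hs] at hbq
    apply h'.assoc_of_mid hbq
    have key : ∀ y, Al L y s = 1 := by
      intro y
      ext g
      obtain ⟨x, hx⟩ : ∃ x, L (L x y) s = g := by
        refine ⟨(Rt L J y)⁻¹ ((Rt L J s)⁻¹ g), ?_⟩
        rw [← h.Rt_app y, o1_ap, ← h.Rt_app, o1_ap]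
      have h1 := h.k3a hK x y s
      have h2 := h.k3c hK x y s
      rw [h.aut (h.Al_mem x y) (h.Al_e x y), h.k_Alxy hK] at h1
      rw [hs, h.k8 hK, ← hs] at h1
      rw [h1, hx] at h2
      rw [← h2]; rfl
    intro a c
    have h3 := h.LL a s
    rw [key, mul_one] at h3
    have h4 := congrArg (fun p : Perm Q => p c) h3
    simp only [Perm.mul_apply] at h4
    exact h4.symm

/-- **finite simple automorphic loops in which `J` fixes only `e` are associative** -/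
theorem odd_assoc [Finite Q] (h : AL G L J e) (hfix : ∀ x, J x = x → x = e) : Assoc L := by
  by_contra hna
  exact hna (h.end_game (h.K7 hna hfix))

end AL

end ALoop
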