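import Pool.Agent.H40.O1.Cm
import Pool.Agent.H40.O2.Cl
import Pool.Agent.H40.O2.Grp

/-!
MP_52f71e_al: in a finite simple nonassociative automorphic loop of odd order `th(a, b)` fixes `b`
(K7).  Steps (1), (2): helper93; the trick (4): helper79, helper77, helper63.
-/

set_option autoImplicit false

namespace ALoop

open Equiv

variable {Q : Type*} {G : Subgroup (Perm Q)} {L : Q → Perm Q} {J : Perm Q} {e : Q}

section Grp
variable {M : Type*} [Group M]

/-- the trick -/
theorem o1_trick {l r l' r' : M} (h1 : Commute l r) (h2 : Commute l l') (h3 : Commute r r')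
    (h4 : Commute l' r') (h5 : Commute (l * r) (l' * r')) :
    Commute (l * r⁻¹) (l' * r'⁻¹) := by
  -- `c = (l' r)⁻¹ (r l')`, `d = (r' l)⁻¹ (l r')`
  obtain ⟨c, hc⟩ : ∃ c, c = (l' * r)⁻¹ * (r * l') := ⟨_, rfl⟩
  obtain ⟨d, hd⟩ : ∃ d, d = (r' * l)⁻¹ * (l * r') := ⟨_, rfl⟩
  have c1 : r * l' = l' * r * c := by rw [hc]; group
  have d1 : l * r' = r' * l * d := by rw [hd]; group
  -- `c` commutes with `l` and `r'`
  have cl : Commute l c := by
    rw [hc]
    exact ((h2.mul_right h1).inv_right).mul_right (h1.mul_right h2)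
  have cr : Commute r' c := by
    rw [hc]
    exact ((h4.symm.mul_right h3.symm).inv_right).mul_right (h3.symm.mul_right h4.symm)
  have dr : Commute r d := by
    rw [hd]
    exact ((h3.mul_right h1.symm).inv_right).mul_right (h1.symm.mul_right h3)
  have dl : Commute l' d := by
    rw [hd]
    exact ((h4.mul_right h2.symm).inv_right).mul_right (h2.symm.mul_right h4)
  have e1 : c = d⁻¹ := by
    have e2 : l * l' * r * c * r' = l' * r' * l * r := by
      calc l * l' * r * c * r' = l * (l' * r * c) * r' := by group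
        _ = l * (r * l') * r' := by rw [c1]
        _ = (l * r) * (l' * r') := by group
        _ = (l' * r') * (l * r) := h5.eq
        _ = _ := by group
    have e3 : r' * l = l * r' * d⁻¹ := by rw [d1]; group
    have e4 : l' * r' * l * r = l' * l * r' * d⁻¹ * r := by
      calc l' * r' * l * r = l' * (r' * l) * r := by group
        _ = l' * (l * r' * d⁻¹) * r := by rw [e3]
        _ = _ := by group
    have e5 : l * l' * r * c * r' = l * l' * (r * r') * c := by
      calc l * l' * r * c * r' = l * l' * r * (c * r') := by group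
        _ = l * l' * r * (r' * c) := by rw [cr.eq]
        _ = _ := by group
    have e6 : l' * l * r' * d⁻¹ * r = l * l' * (r * r') * d⁻¹ := by
      have e7 : d⁻¹ * r = r * d⁻¹ := (dr.inv_right.eq).symm
      calc l' * l * r' * d⁻¹ * r = (l' * l) * r' * (d⁻¹ * r) := by group
        _ = (l * l') * r' * (r * d⁻¹) := by rw [e7, h2.eq]
        _ = (l * l') * (r' * r) * d⁻¹ := by group
        _ = _ := by rw [h3.eq]
    have e8 : l * l' * (r * r') * c = l * l' * (r * r') * d⁻¹ := by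
      rw [← e5, e2, e4, e6]
    exact mul_left_cancel e8
  have cr2 : Commute r c := by rw [e1]; exact dr.inv_right
  have cl2 : Commute l' c := by rw [e1]; exact dl.inv_right
  have f1 : r⁻¹ * l' = l' * r⁻¹ * c⁻¹ := by
    have : l' * r⁻¹ = r⁻¹ * l' * c := by
      calc l' * r⁻¹ = r⁻¹ * (r * l') * r⁻¹ := by group
        _ = r⁻¹ * (l' * r * c) * r⁻¹ := by rw [c1]
        _ = r⁻¹ * l' * (r * c) * r⁻¹ := by group
        _ = r⁻¹ * l' * (c * r) * r⁻¹ := by rw [cr2.eq]
        _ = _ := by group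
    rw [this]; group
  have f2 : l * r'⁻¹ = r'⁻¹ * l * c := by
    have e9 : l * r' = r' * l * c⁻¹ := by rw [d1, e1, inv_inv]
    have e12 : r'⁻¹ * l = l * c⁻¹ * r'⁻¹ := by
      calc r'⁻¹ * l = r'⁻¹ * (l * r') * r'⁻¹ := by group
        _ = r'⁻¹ * (r' * l * c⁻¹) * r'⁻¹ := by rw [e9]
        _ = _ := by group
    have e13 : r'⁻¹ * c = c * r'⁻¹ := cr.inv_left.eq
    rw [e12]
    calc l * r'⁻¹ = l * c⁻¹ * (c * r'⁻¹) := by group
      _ = l * c⁻¹ * (r'⁻¹ * c) := by rw [e13]
      _ = _ := by group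
  show (l * r⁻¹) * (l' * r'⁻¹) = (l' * r'⁻¹) * (l * r⁻¹)
  have g1 : r⁻¹ * c⁻¹ = c⁻¹ * r⁻¹ := (cr2.inv_left.inv_right).eq
  have g2 : c⁻¹ * r'⁻¹ = r'⁻¹ * c⁻¹ := ((cr.inv_left.inv_right).eq).symm
  have g3 : r⁻¹ * r'⁻¹ = r'⁻¹ * r⁻¹ := (h3.inv_left.inv_right).eq
  calc (l * r⁻¹) * (l' * r'⁻¹) = l * (r⁻¹ * l') * r'⁻¹ := by group
    _ = l * (l' * r⁻¹ * c⁻¹) * r'⁻¹ := by rw [f1]
    _ = (l * l') * r⁻¹ * (c⁻¹ * r'⁻¹) := by group
    _ = (l' * l) * r⁻¹ * (r'⁻¹ * c⁻¹) := by rw [g2, h2.eq]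
    _ = l' * l * (r⁻¹ * r'⁻¹) * c⁻¹ := by group
    _ = l' * l * (r'⁻¹ * r⁻¹) * c⁻¹ := by rw [g3]
    _ = l' * (l * r'⁻¹) * r⁻¹ * c⁻¹ := by group
    _ = l' * (r'⁻¹ * l * c) * r⁻¹ * c⁻¹ := by rw [f2]
    _ = l' * r'⁻¹ * l * c * (r⁻¹ * c⁻¹) := by group
    _ = l' * r'⁻¹ * l * c * (c⁻¹ * r⁻¹) := by rw [g1]
    _ = _ := by group

/-- the homomorphism argument -/
theorem o1_hom {X B l P D : M} (hD : D * D = 1)
    (h1 : X * (B * P * B⁻¹) * X⁻¹ = B * (l * D * l⁻¹ * D) * B⁻¹)
    (h2 : X * (B * (P * P) * B⁻¹) * X⁻¹ = B * ((l * l) * D * (l * l)⁻¹ * D) * B⁻¹) :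
    Commute l (D * l * D) := by
  have hDi : D⁻¹ = D := inv_eq_of_mul_eq_one_left hD
  obtain ⟨v, hv⟩ : ∃ v, v = D * l⁻¹ * D := ⟨_, rfl⟩
  have e1 : l * D * l⁻¹ * D = l * v := by rw [hv]; group
  have e2 : (l * l) * D * (l * l)⁻¹ * D = l * l * (v * v) := by
    rw [hv]
    calc (l * l) * D * (l * l)⁻¹ * D = l * l * (D * l⁻¹ * 1 * l⁻¹ * D) := by group
      _ = l * l * (D * l⁻¹ * (D * D) * l⁻¹ * D) := by rw [hD]
      _ = _ := by group
  rw [e1] at h1
  rw [e2] at h2
  have e3 : B * (l * l * (v * v)) * B⁻¹ = B * ((l * v) * (l * v)) * B⁻¹ := by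
    rw [← h2]
    calc X * (B * (P * P) * B⁻¹) * X⁻¹ = (X * (B * P * B⁻¹) * X⁻¹) * (X * (B * P * B⁻¹) * X⁻¹) := by
          group
      _ = (B * (l * v) * B⁻¹) * (B * (l * v) * B⁻¹) := by rw [h1]
      _ = _ := by group
  have e4 : l * l * (v * v) = (l * v) * (l * v) := mul_left_cancel (mul_right_cancel e3)
  have e5 : l * v = v * l := by
    calc l * v = l⁻¹ * (l * l * (v * v)) * v⁻¹ := by group
      _ = l⁻¹ * ((l * v) * (l * v)) * v⁻¹ := by rw [e4]
      _ = _ := by group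
  have e6 : Commute l v := e5
  have e7 := e6.inv_right
  have e8 : v⁻¹ = D * l * D := by
    rw [hv, mul_inv_rev, mul_inv_rev, inv_inv, hDi]; group
  rwa [e8] at e7

end Grp

namespace AL

/-- **K7** -/
theorem K7 [Finite Q] (h' : AL G L J e) (hna : ¬ Assoc L) (hfix : ∀ x, J x = x → x = e) (a b : Q) :
    Th L J a b b = b := by
  have h := h'.al0
  have hJJ := h.JJ1
  have hJi := h.Jinv
  obtain ⟨t, ht⟩ : ∃ t, t = Th L J a b := ⟨_, rfl⟩
  obtain ⟨T, hT⟩ : ∃ T, T = Tx L J b := ⟨_, rfl⟩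
  obtain ⟨R, hR⟩ : ∃ R, R = Rt L J b := ⟨_, rfl⟩
  obtain ⟨R', hR'⟩ : ∃ R', R' = Rt L J (J b) := ⟨_, rfl⟩
  have tG : t ∈ G := ht ▸ h.Th_mem a b
  have te : t e = e := ht ▸ h.Th_e a b
  have tJ : Commute t J := ht ▸ h.Th_J a b
  have RR : Commute R R' := by rw [hR, hR']; exact h.RRJ b
  have TR : T * R = L b := by rw [hT, hR]; unfold Tx; group
  obtain ⟨t1, ht1⟩ : ∃ t1, t1 = T⁻¹ * t * T := ⟨_, rfl⟩
  have TG : T ∈ G := hT ▸ h.Tx_mem b
  have Te : T e = e := hT ▸ h.Tx_e b
  have t1G : t1 ∈ G := ht1 ▸ G.mul_mem (G.mul_mem (G.inv_mem TG) tG) TG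
  have t1e : t1 e = e := by
    have : T⁻¹ e = e := by rw [Perm.inv_eq_iff_eq, Te]
    rw [ht1, Perm.mul_apply, Perm.mul_apply, Te, te, this]
  have t1J : Commute t1 J := h.comJ _ t1G t1e
  -- K1
  have hK1 : (Th L J a (J b))⁻¹ = t1 := by
    have h1 := h.K1 a b
    rw [← hT, ← ht] at h1
    rw [ht1]
    calc (Th L J a (J b))⁻¹ = T⁻¹ * (T * (Th L J a (J b))⁻¹) := by group
      _ = _ := by rw [h1]; group
  have A1 : (L a)⁻¹ * R * L a = R * t⁻¹ := by
    rw [ht, hR]; unfold Th; group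
  have A2 : (L a)⁻¹ * R' * L a = R' * t1 := by
    rw [← hK1, hR']; unfold Th; group
  obtain ⟨z, hz⟩ : ∃ z, z = (L b)⁻¹ * t * L b := ⟨_, rfl⟩
  obtain ⟨y, hy⟩ : ∃ y, y = R'⁻¹ * t * R' := ⟨_, rfl⟩
  obtain ⟨μ, hμ⟩ : ∃ μ, μ = R * R' := ⟨_, rfl⟩
  -- the product
  have B1 : (L a)⁻¹ * μ * L a = μ * (y⁻¹ * t1) := by
    rw [hμ]
    calc (L a)⁻¹ * (R * R') * L a = ((L a)⁻¹ * R * L a) * ((L a)⁻¹ * R' * L a) := by group
      _ = (R * t⁻¹) * (R' * t1) := by rw [A1, A2]
      _ = _ := by rw [hy]; group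
  have zR : R⁻¹ * t1 * R = z := by
    rw [hz, ← TR, ht1]; group
  have B2 : (L a)⁻¹ * μ * L a = μ * (z * t⁻¹) := by
    rw [hμ, RR.eq]
    calc (L a)⁻¹ * (R' * R) * L a = ((L a)⁻¹ * R' * L a) * ((L a)⁻¹ * R * L a) := by group
      _ = (R' * t1) * (R * t⁻¹) := by rw [A1, A2]
      _ = R' * R * (R⁻¹ * t1 * R) * t⁻¹ := by group
      _ = _ := by rw [zR]; group
  have B3 : y⁻¹ * t1 = z * t⁻¹ := mul_left_cancel (B1.symm.trans B2)
  have B4 : y * z = t1 * t := by
    calc y * z = y * (z * t⁻¹) * t := by group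
      _ = y * (y⁻¹ * t1) * t := by rw [B3]
      _ = _ := by group
  have JzJ : J * z * J = y := by
    have e1 : J * L b * J = R' := by rw [hR']; exact h.JLJ b
    have e2 : J * (L b)⁻¹ * J = R'⁻¹ := by
      rw [← e1, mul_inv_rev, mul_inv_rev, hJi]; group
    rw [hz, hy, ← e2, ← e1]
    calc J * ((L b)⁻¹ * t * L b) * J = J * (L b)⁻¹ * (t * 1) * L b * J := by group
      _ = J * (L b)⁻¹ * (t * (J * J)) * L b * J := by rw [hJJ]
      _ = J * (L b)⁻¹ * ((t * J) * J) * L b * J := by group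
      _ = J * (L b)⁻¹ * ((J * t) * J) * L b * J := by rw [tJ.eq]
      _ = _ := by group
  have JyJ : J * y * J = z := by
    rw [← JzJ]
    calc J * (J * z * J) * J = (J * J) * z * (J * J) := by group
      _ = z := by rw [hJJ]; group
  have B5 : z * y = t1 * t := by
    calc z * y = (J * y * J) * (J * z * J) := by rw [JyJ, JzJ]
      _ = J * y * (J * J) * z * J := by group
      _ = J * (y * z) * J := by rw [hJJ]; group
      _ = J * (t1 * t) * J := by rw [B4]
      _ = (J * t1) * t * J := by group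
      _ = (t1 * J) * t * J := by rw [t1J.eq]
      _ = t1 * (J * t) * J := by group
      _ = t1 * (t * J) * J := by rw [tJ.eq]
      _ = t1 * t * (J * J) := by group
      _ = _ := by rw [hJJ, mul_one]
  have zy : Commute z y := B5.trans B4.symm
  -- `l`
  obtain ⟨l, hl⟩ : ∃ l, l = z * t⁻¹ := ⟨_, rfl⟩
  have l1 : l = (L b)⁻¹ * L (t b) := by
    rw [hl, hz, ← h.equi t tG te b]; group
  have μG : μ ∈ G := by rw [hμ, hR, hR']; exact G.mul_mem (h.memR _) (h.memR _)
  have μe : μ e = e := by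
    rw [hμ, hR, hR', Perm.mul_apply, h.Rt_e, h.Rt_app, h.JL]
  have μiG : μ⁻¹ ∈ G := G.inv_mem μG
  have μie : μ⁻¹ e = e := by rw [Perm.inv_eq_iff_eq, μe]
  obtain ⟨a', ha'⟩ : ∃ a', a' = μ⁻¹ a := ⟨_, rfl⟩
  have l2 : l = (L a')⁻¹ * L a := by
    have e1 := h.equi μ⁻¹ μiG μie a
    rw [← ha', inv_inv] at e1
    rw [← e1]
    have e2 : μ * l = (L a)⁻¹ * μ * L a := by rw [hl, B2]
    calc l = μ⁻¹ * (μ * l) := by group
      _ = μ⁻¹ * ((L a)⁻¹ * μ * L a) := by rw [e2]
      _ = _ := by group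
  obtain ⟨u, hu⟩ : ∃ u, u = l e := ⟨_, rfl⟩
  obtain ⟨k, hk⟩ : ∃ k, k = l⁻¹ * L u := ⟨_, rfl⟩
  have zG : z ∈ G := hz ▸ G.mul_mem (G.mul_mem (G.inv_mem (h.memL _)) tG) (h.memL _)
  have lG : l ∈ G := hl ▸ G.mul_mem zG (G.inv_mem tG)
  have kG : k ∈ G := hk ▸ G.mul_mem (G.inv_mem lG) (h.memL _)
  have ke : k e = e := by
    rw [hk, Perm.mul_apply, h.Le, Perm.inv_eq_iff_eq, hu]
  have bu : L b u = t b := by
    rw [hu, l1, Perm.mul_apply, h.Le, o1_ap]
  have a'u : L a' u = a := by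
    rw [hu, l2, Perm.mul_apply, h.Le, o1_ap]
  -- `k` fixes `b` and `a'`
  have kb : k b = b := by
    rw [hk, Perm.mul_apply, Perm.inv_eq_iff_eq]
    rw [l1, Perm.mul_apply, Perm.eq_inv_iff_eq, h.flex', bu]
  have ka' : k a' = a' := by
    rw [hk, Perm.mul_apply, Perm.inv_eq_iff_eq]
    rw [l2, Perm.mul_apply, Perm.eq_inv_iff_eq, h.flex', a'u]
  have kb' : k (J b) = J b := h.fixJ kG ke kb
  have kR : Commute k R := by rw [hR]; exact h.comR kG ke kb
  have kR' : Commute k R' := by rw [hR']; exact h.comR kG ke kb'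
  have kμ : Commute k μ := by rw [hμ]; exact kR.mul_right kR'
  have ka : k a = a := by
    have e1 : a = μ a' := by rw [ha', o1_ap]
    have e2 := congrArg (fun p : Perm Q => p a') kμ.eq
    simp only [Perm.mul_apply] at e2
    rw [ka', ← e1] at e2
    exact e2
  have kLa : Commute k (L a) := h.comL kG ke ka
  have kLb : Commute k (L b) := h.comL kG ke kb
  have kt : Commute k t := by
    rw [ht]
    unfold Th
    rw [← hR]
    exact ((kLa.inv_right.mul_right kR.inv_right).mul_right kLa).mul_right kR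
  have kz : Commute k z := by
    rw [hz]
    exact (kLb.inv_right.mul_right kt).mul_right kLb
  have kl : Commute k l := by rw [hl]; exact kz.mul_right kt.inv_right
  have ku : k u = u := by
    have e2 := congrArg (fun p : Perm Q => p e) kl.eq
    simp only [Perm.mul_apply] at e2
    rw [ke, ← hu] at e2
    exact e2
  have kLu : Commute k (L u) := h.comL kG ke ku
  have kJ : Commute k J := h.comJ k kG ke
  have Ru : Commute k (Rt L J (J u)) := h.comR kG ke (h.fixJ kG ke ku)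
  have hz2 : z = L u * k⁻¹ * t := by
    have e1 : l = L u * k⁻¹ := by rw [hk]; group
    calc z = (z * t⁻¹) * t := by group
      _ = l * t := by rw [hl]
      _ = _ := by rw [e1]
  have hy2 : y = Rt L J (J u) * k⁻¹ * t := by
    rw [← JzJ, hz2, ← h.JLJ u]
    have e1 : Commute J k⁻¹ := kJ.symm.inv_right
    calc J * (L u * k⁻¹ * t) * J = J * L u * 1 * k⁻¹ * (t * J) := by group
      _ = J * L u * (J * J) * k⁻¹ * (J * t) := by rw [hJJ, tJ.eq]
      _ = J * L u * J * (J * k⁻¹) * J * t := by group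
      _ = J * L u * J * (k⁻¹ * J) * J * t := by rw [e1.eq]
      _ = J * L u * J * k⁻¹ * (J * J) * t := by group
      _ = _ := by rw [hJJ]; group
  -- `t` fixes `u`
  have tu : t u = u := by
    have e1 : (y * z) e = e := by
      rw [B4, Perm.mul_apply, te, t1e]
    rw [hy2, hz2] at e1
    simp only [Perm.mul_apply] at e1
    have e2 : k⁻¹ e = e := by rw [Perm.inv_eq_iff_eq, ke]
    rw [te, e2, h.Le] at e1
    have e3 : k⁻¹ (t u) = (Rt L J (J u))⁻¹ e := by
      rw [Perm.eq_inv_iff_eq]; exact e1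
    rw [h.Rt_inv_e, h.JJ, Perm.inv_eq_iff_eq, ku] at e3
    exact e3
  have tLu : Commute t (L u) := h.comL tG te tu
  have tRu : Commute t (Rt L J (J u)) := h.comR tG te (h.fixJ tG te tu)
  have tz : Commute t z := by
    rw [hz2]
    exact (tLu.mul_right kt.symm.inv_right).mul_right (Commute.refl t)
  have ty : Commute t y := by
    rw [hy2]
    exact (tRu.mul_right kt.symm.inv_right).mul_right (Commute.refl t)
  obtain ⟨r, hr⟩ : ∃ r, r = y * t⁻¹ := ⟨_, rfl⟩
  have JlJ : J * l * J = r := by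
    rw [hl, hr, ← JzJ]
    have e1 : Commute t⁻¹ J := tJ.inv_left
    calc J * (z * t⁻¹) * J = J * z * (t⁻¹ * J) := by group
      _ = J * z * (J * t⁻¹) := by rw [e1.eq]
      _ = _ := by group
  have lr : Commute l r := by
    rw [hl, hr]
    exact (zy.mul_right tz.symm.inv_right).mul_left
      ((ty.mul_right (Commute.refl t).inv_right).inv_left)
  -- `P = l r⁻¹ = D u J`
  obtain ⟨P, hP⟩ : ∃ P, P = l * r⁻¹ := ⟨_, rfl⟩
  have DuJ : D L J u * J = P := by
    have e1 : P = L u * (Rt L J (J u))⁻¹ := by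
      have e2 : P = z * y⁻¹ := by
        rw [hP, hl, hr]
        have : Commute t⁻¹ y⁻¹ := ty.inv_left.inv_right
        calc z * t⁻¹ * (y * t⁻¹)⁻¹ = z * (t⁻¹ * t) * y⁻¹ := by group
          _ = _ := by group
      rw [e2, hz2, hy2]; group
    rw [e1]
    have e3 : J * (L u)⁻¹ * J = (Rt L J (J u))⁻¹ := by
      rw [← h.JLJ, mul_inv_rev, mul_inv_rev, hJi]; group
    unfold D
    rw [← e3]; group
  -- `l r = τ`
  have lrτ : l * r = AL0.Tau L J a b := by
    rw [hl, hr]
    have e1 : t⁻¹ * y = y * t⁻¹ := ty.inv_left.eq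
    calc z * t⁻¹ * (y * t⁻¹) = z * (t⁻¹ * y) * t⁻¹ := by group
      _ = z * (y * t⁻¹) * t⁻¹ := by rw [e1]
      _ = (z * y) * t⁻¹ * t⁻¹ := by group
      _ = (t1 * t) * t⁻¹ * t⁻¹ := by rw [B5]
      _ = t1 * t⁻¹ := by group
      _ = _ := by rw [ht1]; unfold AL0.Tau; rw [← ht, ← hT]
  -- step (2)
  have lD : ∀ x, Commute l (D L J x * l * D L J x) := by
    intro x
    -- general `j`
    have gen : ∀ g ∈ G, g e = e → ∀ m p : Perm Q, g * L b * g⁻¹ = L b * m → J * m * J = p →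
        Rt L J x * (L b * (m * p⁻¹) * (L b)⁻¹) * (Rt L J x)⁻¹ =
          L b * (m * D L J x * m⁻¹ * D L J x) * (L b)⁻¹ := by
      intro g hg hge m p h1 h2
      have e0 : L (g b) = L b * m := by rw [← h.equi g hg hge, h1]
      have e1 : L b * (m * p⁻¹) * (L b)⁻¹ = D L J (g b) * D L J b := by
        unfold D
        rw [e0]
        have e2 : J * m⁻¹ * J = p⁻¹ := by
          rw [← h2, mul_inv_rev, mul_inv_rev, hJi]; group
        rw [← e2]
        calc L b * (m * (J * m⁻¹ * J)) * (L b)⁻¹ = L b * m * J * (m⁻¹ * (L b)⁻¹ * L b) * J * (L b)⁻¹ := by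
              group
          _ = _ := by group
      have e3 : ∀ w, Rt L J x * D L J w * (Rt L J x)⁻¹ = D L J (L w x) := by
        intro w
        rw [h'.D_conj (h.memR x), h.Rt_app]
      have e4 : ∀ w, L w * D L J x * (L w)⁻¹ = D L J (L w x) := by
        intro w
        rw [h'.D_conj (h.memL w)]
      rw [e1]
      calc Rt L J x * (D L J (g b) * D L J b) * (Rt L J x)⁻¹
          = (Rt L J x * D L J (g b) * (Rt L J x)⁻¹) * (Rt L J x * D L J b * (Rt L J x)⁻¹) := by group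
        _ = (L (g b) * D L J x * (L (g b))⁻¹) * (L b * D L J x * (L b)⁻¹) := by
            rw [e3, e3, e4, e4]
        _ = _ := by rw [e0]; group
    have lb : t * L b * t⁻¹ = L b * l := by rw [hl, hz]; group
    have lt : Commute t l := by rw [hl]; exact tz.mul_right (Commute.refl t).inv_right
    have g1 := gen t tG te l r lb JlJ
    have lb2 : (t * t) * L b * (t * t)⁻¹ = L b * (l * l) := by
      calc (t * t) * L b * (t * t)⁻¹ = t * (t * L b * t⁻¹) * t⁻¹ := by group
        _ = t * (L b * l) * t⁻¹ := by rw [lb]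
        _ = (t * L b * t⁻¹) * (t * l) * t⁻¹ := by group
        _ = (L b * l) * (l * t) * t⁻¹ := by rw [lb, lt.eq]
        _ = _ := by group
    have JllJ : J * (l * l) * J = r * r := by
      rw [← JlJ]
      calc J * (l * l) * J = J * l * 1 * l * J := by group
        _ = J * l * (J * J) * l * J := by rw [hJJ]
        _ = _ := by group
    have g2 := gen (t * t) (G.mul_mem tG tG) (by rw [Perm.mul_apply, te, te]) (l * l) (r * r) lb2 JllJ
    have e5 : (l * l) * (r * r)⁻¹ = (l * r⁻¹) * (l * r⁻¹) := by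
      have e6 : l * r⁻¹ = r⁻¹ * l := lr.inv_right.eq
      calc (l * l) * (r * r)⁻¹ = l * (l * r⁻¹) * r⁻¹ := by group
        _ = l * (r⁻¹ * l) * r⁻¹ := by rw [e6]
        _ = _ := by group
    rw [e5] at g2
    exact o1_hom (h'.D_sq x) g1 g2
  have rD : ∀ x, Commute r (D L J x * r * D L J x) := by
    intro x
    have e1 := lD (J x)
    have e2 : J * (D L J (J x) * l * D L J (J x)) * J = D L J x * r * D L J x := by
      rw [← JlJ, ← h'.D_J x]
      calc J * (J * D L J x * J * l * (J * D L J x * J)) * J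
          = (J * J) * D L J x * (J * l * J) * D L J x * (J * J) := by group
        _ = _ := by rw [hJJ]; group
    have e3 : J * (l * (D L J (J x) * l * D L J (J x))) * J
        = J * ((D L J (J x) * l * D L J (J x)) * l) * J := by rw [e1.eq]
    show r * (D L J x * r * D L J x) = (D L J x * r * D L J x) * r
    rw [← e2]
    calc r * (J * (D L J (J x) * l * D L J (J x)) * J)
        = (J * l * J) * (J * (D L J (J x) * l * D L J (J x)) * J) := by rw [JlJ]
      _ = J * l * (J * J) * (D L J (J x) * l * D L J (J x)) * J := by group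
      _ = J * (l * (D L J (J x) * l * D L J (J x))) * J := by rw [hJJ]; group
      _ = J * ((D L J (J x) * l * D L J (J x)) * l) * J := e3
      _ = J * (D L J (J x) * l * D L J (J x)) * 1 * l * J := by group
      _ = J * (D L J (J x) * l * D L J (J x)) * (J * J) * l * J := by rw [hJJ]
      _ = (J * (D L J (J x) * l * D L J (J x)) * J) * (J * l * J) := by group
      _ = _ := by rw [JlJ]
  -- step (4)
  have PD : ∀ x, Commute P (D L J x * P * D L J x) := by
    intro x
    have hDD := h'.D_sq x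
    have hDi : (D L J x)⁻¹ = D L J x := inv_eq_of_mul_eq_one_left hDD
    have cj : ∀ p q : Perm Q, D L J x * (p * q) * D L J x =
        (D L J x * p * D L J x) * (D L J x * q * D L J x) := by
      intro p q
      calc D L J x * (p * q) * D L J x = D L J x * p * 1 * q * D L J x := by group
        _ = D L J x * p * (D L J x * D L J x) * q * D L J x := by rw [hDD]
        _ = _ := by group
    have ci : ∀ p : Perm Q, D L J x * p⁻¹ * D L J x = (D L J x * p * D L J x)⁻¹ := by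
      intro p
      rw [mul_inv_rev, mul_inv_rev, hDi]; group
    have h4 : Commute (D L J x * l * D L J x) (D L J x * r * D L J x) := by
      show _ * _ = _ * _
      rw [← cj, ← cj, lr.eq]
    have h5 : Commute (l * r) ((D L J x * l * D L J x) * (D L J x * r * D L J x)) := by
      rw [← cj, lrτ]
      exact h.Tau_D a b x
    have h6 := o1_trick lr (lD x) (rD x) h4 h5
    rw [hP, cj, ci]
    exact h6
  have PG : P ∈ G := by
    rw [hP]
    refine G.mul_mem lG (G.inv_mem ?_)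
    rw [← JlJ]
    exact h.JG _ lG
  have JPJ : J * P * J = P⁻¹ := by
    rw [← DuJ]
    have i1 : (D L J u)⁻¹ = D L J u := inv_eq_of_mul_eq_one_left (h'.D_sq u)
    rw [mul_inv_rev, i1, hJi]
    calc J * (D L J u * J) * J = J * D L J u * (J * J) := by group
      _ = _ := by rw [hJJ, mul_one]
  have Podd : Odd (orderOf P) := DuJ ▸ h'.odd_P hfix u
  have P1 : P = 1 := by
    refine h'.claimAL hna PG Podd (q := e) ?_ PD
    rw [h'.D_e]
    exact JPJ
  have ue : u = e := by
    apply h'.D_inj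
    rw [h'.D_e]
    rw [P1] at DuJ
    calc D L J u = (D L J u * J) * J := by rw [mul_assoc, hJJ, mul_one]
      _ = _ := by rw [DuJ, one_mul]
  rw [← ht, ← bu, ue, h.Le]

end AL

end ALoop
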